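import Pool.Agent.FOMod384.Parity

/-!
# FO+MOD transductions are stronger than FO transductions

There are infinite classes `C`, `D` of finite graphs such that `D` is an FO+MOD-transduction of `C`
but not an FO-transduction of `C`.

Idea.  Take a hypergraph of huge girth on `N` points, with hyperedges of even size `t` and with far
more than `N log N` hyperedges.  Choose in each hyperedge `e` a point `z e` and a bit `b e`, and
remove `z e` from `e` when `b e` is false.  The graph `G` in `C` is the collinearity graph of this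
hypergraph, and `H` in `D` has the edges of `G` lying in hyperedges of even size, that is with
`b e` true; a single parity quantifier (number of common neighbours) defines `H` in `G`.
A first-order formula sees only thresholded counts along short walks, so after any colouring its
value on a pair is determined by labels of the points and of the hyperedges on the walk, and the
labels of the hyperedges are determined by those of the points up to few exceptions.  There are too
few colourings and vertex maps to match all patterns `b`, so some `b` defeats all first-order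
transductions of bounded complexity.  Members of `C` at higher levels have so large girth that the
graphs of size `N` transduced from them have near-twins in every large set of vertices, and there
are too few such graphs as well.
-/

namespace FOMod384

open Classical

/-- the sequence of levels -/
noncomputable def levs : ℕ → Lev
  | 0 => (exists_level 1 10 0 le_rfl).choose
  | n+1 => (exists_level (n+2) (2*(n+2) + (levs n).N^2*(n+3)) (levs n).N (by omega)).choose

theorem levs_zero : (levs 0).Good 1 10 0 := by
  unfold levs; exact (exists_level 1 10 0 le_rfl).choose_spec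

theorem levs_succ (n : ℕ) :
    (levs (n+1)).Good (n+2) (2*(n+2) + (levs n).N^2*(n+3)) (levs n).N := by
  have h := (exists_level (n+2) (2*(n+2) + (levs n).N^2*(n+3)) (levs n).N (by omega)).choose_spec
  rw [levs]; exact h

theorem levs_mono : StrictMono (fun n => (levs n).N) :=
  strictMono_nat_of_lt_succ (fun n => (levs_succ n).1)

/-- every level is good -/
theorem levs_good (n : ℕ) : ∃ N0, (levs n).Good (n+1) (2*(n+1)) N0 := by
  rcases n with _ | n
  · obtain ⟨h1, h2, h3⟩ := levs_zero
    exact ⟨0, h1, h2.mono (by omega), h3⟩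
  · obtain ⟨h1, h2, h3⟩ := levs_succ n
    exact ⟨_, h1, h2.mono (by omega), h3⟩

theorem levs_gir {n n' : ℕ} (h : n < n') :
    Gir (incG (levs n').I) (2*(n+1) + (levs n).N^2*(n+2)) := by
  obtain ⟨m, rfl⟩ : ∃ m, n' = m + 1 := ⟨n' - 1, by omega⟩
  obtain ⟨h1, h2, h3⟩ := levs_succ m
  refine h2.mono ?_
  have hN : (levs n).N ≤ (levs m).N := levs_mono.monotone (by omega : n ≤ m)
  have h4 : (levs n).N^2 ≤ (levs m).N^2 := Nat.pow_le_pow_left hN 2
  have h5 : (levs n).N^2*(n+2) ≤ (levs m).N^2*(m+3) := Nat.mul_le_mul h4 (by omega)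
  omega

/-- near-twins in graphs represented in an incidence structure of very large girth -/
theorem tw_of_repr {p : ℕ} {V E Vn : Type} [Fintype V] [Fintype E] [Fintype Vn] {I : V → E → Prop}
    (hg : Gir (incG I) (2*p + (Fintype.card Vn)^2*(p+1))) (π : Vn → V) (hπ : Function.Injective π)
    (lam : V ⊕ E → Fin p) (Q : V → V → Prop)
    (hQ : ∀ x y x' y', Same (incG I) lam p (.inl x) (.inl y) (.inl x') (.inl y') →
      (Q x y ↔ Q x' y'))
    (H : SimpleGraph Vn) (hH : ∀ x y, x ≠ y → (H.Adj x y ↔ Q (π x) (π y) ∧ Q (π y) (π x))) :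
    TW (Mtw p) (Ktw p) (fun x y => decide (H.Adj x y)) := by
  intro X hX
  let X' : Finset (V ⊕ E) := X.image (fun x => (.inl (π x) : V ⊕ E))
  have hinj : Function.Injective (fun x => (.inl (π x) : V ⊕ E)) :=
    fun a b h => hπ (Sum.inl_injective h)
  have hX' : X'.card = X.card := Finset.card_image_of_injective _ hinj
  have hXN : X.card ≤ Fintype.card Vn := Finset.card_le_univ X
  have hg' : Gir (incG I) (2*p + X'.card^2*(p+1)) := by
    refine hg.mono ?_
    have : X'.card^2 ≤ (Fintype.card Vn)^2 := Nat.pow_le_pow_left (by omega) 2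
    have := Nat.mul_le_mul_right (p+1) this
    omega
  obtain ⟨x1, hx1, x2, hx2, hne, hc⟩ := near_twins lam p X' (Mtw p)
    (by simp [Mtw, Fintype.card_fin]) (by rw [hX']; exact hX) hg'
  obtain ⟨x, hx, rfl⟩ := Finset.mem_image.1 hx1
  obtain ⟨x', hx', rfl⟩ := Finset.mem_image.1 hx2
  refine ⟨x, hx, x', hx', fun h => hne (by rw [h]), ?_⟩
  let A : Finset Vn := X.filter (fun y =>
    ¬ Same (incG I) lam p (.inl (π x)) (.inl (π y)) (.inl (π x')) (.inl (π y)))
  have hA : A.card ≤ 2 * Mtw p := by
    refine le_trans ?_ hc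
    refine Finset.card_le_card_of_injOn (fun y => (.inl (π y) : V ⊕ E)) ?_ (fun a _ b _ h => hinj h)
    intro y hy
    have hy' := Finset.mem_filter.1 (Finset.mem_coe.1 hy)
    exact Finset.mem_coe.2 (Finset.mem_filter.2 ⟨Finset.mem_image.2 ⟨y, hy'.1, rfl⟩, hy'.2⟩)
  have hsub : X.filter (fun y => decide (H.Adj x y) ≠ decide (H.Adj x' y)) ⊆
      insert x (insert x' A) := by
    intro y hy
    obtain ⟨hyX, hyne⟩ := Finset.mem_filter.1 hy
    simp only [Finset.mem_insert]
    by_contra hcon
    push Not at hcon
    obtain ⟨h1, h2, h3⟩ := hcon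
    apply hyne
    apply decide_eq_decide.2
    have hs : Same (incG I) lam p (.inl (π x)) (.inl (π y)) (.inl (π x')) (.inl (π y)) := by
      by_contra hs
      exact h3 (Finset.mem_filter.2 ⟨hyX, hs⟩)
    rw [hH x y (fun h => h1 h.symm), hH x' y (fun h => h2 h.symm), hQ _ _ _ _ hs, hQ _ _ _ _ hs.rev]
  refine (Finset.card_le_card hsub).trans ((Finset.card_insert_le _ _).trans ?_)
  have h2 := Finset.card_insert_le x' A
  unfold Ktw
  omega

/-- the class `C` -/
noncomputable def classC : Set FinGraph := Set.range (fun n => ⟨(levs n).N, gG (levs n).I⟩)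

/-- the class `D` -/
noncomputable def classD : Set FinGraph := Set.range (fun n => ⟨(levs n).N, (levs n).H⟩)

theorem classC_infinite : classC.Infinite := by
  apply Set.infinite_range_of_injective
  intro a b h
  exact levs_mono.injective (congrArg Sigma.fst h)

theorem classD_infinite : classD.Infinite := by
  apply Set.infinite_range_of_injective
  intro a b h
  exact levs_mono.injective (congrArg Sigma.fst h)

/-- the parity transduction -/
def parT : Transduction where
  m := 0
  nu := .eq 0 0
  eta := .and (.adj 0 1) (.exMod 0 2 (by norm_num) (.and (.adj 0 2) (.adj 1 2)))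

theorem parT_eta {V : Type} (G : SimpleGraph V) (U : Fin 0 → Set V) (x y : V) :
    parT.eta.Holds G U ![x, y] ↔
      (G.Adj x y ∧ Nat.card {w // G.Adj x w ∧ G.Adj y w} % 2 = 0) := Iff.rfl

theorem pos_dir : IsFOMODTransductionOf classD classC := by
  refine ⟨parT, ?_⟩
  rintro _ ⟨n, rfl⟩
  obtain ⟨N0, h1, h2, h3, h4, h5⟩ := levs_good n
  refine ⟨_, ⟨n, rfl⟩, fun _ => ∅, ⟨?_⟩⟩
  refine ⟨⟨fun v => ⟨v, rfl⟩, fun v => v.1, fun v => rfl, fun v => rfl⟩, ?_⟩
  intro x y
  change ((⟨x, _⟩ : {v // parT.nu.Holds (gG (levs n).I) _ ![v]}) ≠ ⟨y, _⟩ ∧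
    parT.eta.Holds (gG (levs n).I) _ ![x, y] ∧ parT.eta.Holds (gG (levs n).I) _ ![y, x]) ↔
      (levs n).H.Adj x y
  constructor
  · rintro ⟨_, h, _⟩; exact (h3 x y).2 ((parT_eta _ _ x y).1 h)
  · intro h
    exact ⟨fun he => h.ne (congrArg Subtype.val he), (parT_eta _ _ x y).2 ((h3 x y).1 h),
      (parT_eta _ _ y x).2 ((h3 y x).1 h.symm)⟩

theorem neg_dir : ¬ IsFOTransductionOf classD classC := by
  rintro ⟨T, hT, hD⟩
  obtain ⟨p0, hp0⟩ := loc_two T.eta hT.2
  -- use level `n = p0`, with `p = p0 + 1`
  obtain ⟨G, ⟨n', rfl⟩, U, ⟨iso⟩⟩ := hD ⟨p0, rfl⟩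
  simp only at U iso
  obtain ⟨N0, h1, h2, h3, h4, h5⟩ := levs_good p0
  let π : Fin (levs p0).N → Fin (levs n').N := fun v => (iso v).1
  have hπ : Function.Injective π := fun a b h => iso.injective (Subtype.ext h)
  have hH : ∀ x y, x ≠ y → ((levs p0).H.Adj x y ↔
      T.eta.Holds (gG (levs n').I) U ![π x, π y] ∧ T.eta.Holds (gG (levs n').I) U ![π y, π x]) := by
    intro x y hxy
    have := iso.map_rel_iff' (a := x) (b := y)
    change _ ↔ (levs p0).H.Adj x y at this
    rw [← this]
    constructor
    · intro h; exact h.2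
    · intro h
      exact ⟨fun he => hxy (iso.injective he), h⟩
  have hle : p0 ≤ n' := by
    have := Fintype.card_le_of_injective π hπ
    simp only [Fintype.card_fin] at this
    exact levs_mono.le_iff_le.1 this
  rcases Nat.eq_or_lt_of_le hle with rfl | hlt
  · obtain ⟨lam, g1, g2⟩ := hp0 (p0+1) (by omega) _ _ (levs p0).I h2 U
    exact h4 ⟨π, lam, fun x y => T.eta.Holds (gG (levs p0).I) U ![x, y], g1, g2, hH⟩
  · have hg := levs_gir hlt
    obtain ⟨lam, g1, g2⟩ := hp0 (p0+1) (by omega) _ _ (levs n').I (hg.mono (by omega)) U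
    apply h5
    refine tw_of_repr (by rw [Fintype.card_fin]; exact hg) π hπ lam
      (fun x y => T.eta.Holds (gG (levs n').I) U ![x, y]) g2 _ hH

end FOMod384

namespace Pool.Agent.Results.MP_e18332_lc.Disproof

open FOMod384

/-- There are infinite classes `C`, `D` of finite graphs such that `D` is an FO+MOD-transduction
of `C` but not an FO-transduction of `C`. -/
theorem result : ∃ C D : Set FinGraph, C.Infinite ∧ D.Infinite ∧
    IsFOMODTransductionOf D C ∧ ¬ IsFOTransductionOf D C :=
  ⟨classC, classD, classC_infinite, classD_infinite, pos_dir, neg_dir⟩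

end Pool.Agent.Results.MP_e18332_lc.Disproof
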